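import Mathlib
import Pool.Agent.Helper73.TH.Defs
import Pool.Agent.Helper73.TH.UDefs

set_option autoImplicit false

/-!
Project TH (MP_594f4b_nt, Q2), piece TH-5: parameters from the curve.
-/

namespace Pool.Agent.Helper73.TH

theorem exists_par {ρ σ β s : ℝ} (h : Curve ρ σ β) (hρ : 1 < ρ) (hβ : β < 1) (hs : σ < s)
    (hs2 : s < 2) : ∃ P : Par, Ineq P ρ s := by
  have hs1 := h.hs1
  have hσ2 := h.hs2
  have hβ0 := h.hβ0
  have e1 := h.e1
  have e2 := h.e2
  obtain ⟨κ, hκ⟩ : ∃ κ : ℝ, κ * (σ - 1) = σ :=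
    ⟨σ / (σ - 1), div_mul_cancel₀ _ (by linarith)⟩
  obtain ⟨γ, hγ⟩ : ∃ γ : ℝ, γ * β = 1 + σ := ⟨(1 + σ) / β, div_mul_cancel₀ _ hβ0.ne'⟩
  have hσ1 : 0 < σ - 1 := by linarith
  have hbs : β * (σ - 1) ≠ 0 := (mul_pos hβ0 hσ1).ne'
  -- golden
  have hg : 0 < σ ^ 2 - σ - 1 := by
    have h1 : 0 < (σ + 1) * (σ ^ 2 - σ - 1) := by
      rw [← e1]; positivity
    exact (pos_iff_pos_of_mul_pos h1).1 (by linarith)
  have hκ2 : 2 ≤ κ := by
    by_contra hc
    push Not at hc
    nlinarith [mul_lt_mul_of_pos_right hc hσ1]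
  have hκpos : 0 < κ := by linarith
  have hγσ : 1 + σ < γ := by
    by_contra hc
    push Not at hc
    have : γ * β ≤ (1 + σ) * β := mul_le_mul_of_nonneg_right hc hβ0.le
    nlinarith
  have hγpos : 0 < γ := by linarith
  have hκσ : κ < 1 + σ := by
    by_contra hc
    push Not at hc
    nlinarith [mul_le_mul_of_nonneg_right hc hσ1.le]
  -- alpha / gamma
  obtain ⟨q, hq⟩ : ∃ q : ℝ, q * γ = 1 - β := ⟨(1 - β) / γ, div_mul_cancel₀ _ hγpos.ne'⟩
  have hqe : (1 - β) / γ = q := by rw [← hq]; field_simp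
  have hq0 : 0 < q := by
    have : 0 < q * γ := by rw [hq]; linarith
    exact (pos_iff_pos_of_mul_pos this).2 hγpos
  have hqβ : q < β := by
    by_contra hc
    push Not at hc
    have : β * γ ≤ q * γ := mul_le_mul_of_nonneg_right hc hγpos.le
    nlinarith
  -- the three equalities
  have E2 : γ * κ = (1 + σ) * (γ - 1) + σ * (1 - β) := by
    have h0 : (γ * κ - ((1 + σ) * (γ - 1) + σ * (1 - β))) * (β * (σ - 1)) = 0 := by
      linear_combination (γ * β) * hκ + σ * hγ - (1 + σ) * (σ - 1) * hγ + e1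
    have := (mul_eq_zero.1 h0).resolve_right hbs
    linarith
  have E5 : γ * κ = (1 - β) * γ + σ * (1 - β) + σ * γ := by
    have h0 : (γ * κ - ((1 - β) * γ + σ * (1 - β) + σ * γ)) * (β * (σ - 1)) = 0 := by
      linear_combination (γ * β) * hκ + σ * hγ - (1 - β + σ) * (σ - 1) * hγ + e1
    have := (mul_eq_zero.1 h0).resolve_right hbs
    linarith
  have E3 : (ρ - 1) * (γ * κ - σ) = (1 + σ) * (1 - ρ * (1 - β)) := by
    have h0 : ((ρ - 1) * (γ * κ - σ) - (1 + σ) * (1 - ρ * (1 - β))) * (β * (σ - 1)) = 0 := by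
      linear_combination (ρ - 1) * (γ * β) * hκ + (ρ - 1) * σ * hγ - e2
    have := (mul_eq_zero.1 h0).resolve_right hbs
    linarith
  have hρα : 0 < 1 - ρ * (1 - β) := by
    have h1 : 0 < (1 + σ) * (1 - ρ * (1 - β)) := by
      rw [← E3]
      apply mul_pos (by linarith)
      nlinarith
    exact (pos_iff_pos_of_mul_pos h1).1 (by linarith)
  have hρpos : 0 < ρ := by linarith
  have hb2 : ρ - 1 < ρ * β ^ 2 := by
    have e2' : (ρ - 1) * (σ * (1 + σ) + (σ - 1) * β) = (σ - 1) * (1 + σ) * (ρ * β ^ 2) := by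
      linear_combination -e2
    by_contra hc
    push Not at hc
    have h1 : (σ - 1) * (1 + σ) * (ρ * β ^ 2) ≤ (σ - 1) * (1 + σ) * (ρ - 1) :=
      mul_le_mul_of_nonneg_left hc (by positivity)
    have h2 : 0 < (ρ - 1) * (σ * (1 + σ) + (σ - 1) * β - (σ - 1) * (1 + σ)) := by
      apply mul_pos (by linarith)
      nlinarith [mul_pos hσ1 hβ0]
    nlinarith
  refine ⟨⟨1 - β, γ, κ, by linarith, by linarith, by linarith, ?_, ?_⟩, ?_⟩
  · rw [hqe]; linarith
  · linarith
  · refine ⟨hρ, by linarith, ?_, ?_, ?_, ?_, ?_, ?_, ?_, ?_⟩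
    · change ρ * (1 - β) < 1
      linarith
    · change s < κ * (s - 1)
      nlinarith
    · change γ * κ < (1 + s) * (γ - 1) + s * (1 - β)
      nlinarith
    · change (ρ - 1) * (γ * κ - s) < (1 + s) * (1 - ρ * (1 - β))
      nlinarith
    · change γ * κ < (1 - β) * γ + s * (1 - β) + s * γ
      nlinarith
    · change 1 - β < γ * (1 / ρ + s - κ)
      -- at sigma
      have hi : 1 / ρ * ρ = 1 := by field_simp
      have key : 1 - β < γ * (1 / ρ + σ - κ) := by
        have h1 : γ * (1 / ρ + σ - κ) - (1 - β)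
            = γ * (1 / ρ) - (1 - β) * γ - (1 + σ) * (1 - β) := by
          linear_combination -E5
        have h2 : 0 < γ * (1 / ρ) - (1 - β) * γ - (1 + σ) * (1 - β) := by
          have h3 : (γ * (1 / ρ) - (1 - β) * γ - (1 + σ) * (1 - β)) * (ρ * β)
              = (1 + σ) * (ρ * β ^ 2 - (ρ - 1)) := by
            linear_combination (γ * β) * hi + (1 - (1 - β) * ρ) * hγ
          have h4 : 0 < (γ * (1 / ρ) - (1 - β) * γ - (1 + σ) * (1 - β)) * (ρ * β) := by
            rw [h3]
            exact mul_pos (by linarith) (by linarith)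
          exact (pos_iff_pos_of_mul_pos h4).2 (mul_pos hρpos hβ0)
        linarith
      nlinarith
    · change 1 + (1 - β) / γ < s * (κ - 1)
      rw [hqe]
      nlinarith
    · change (ρ - 1) * (κ - s) < s * (1 - ρ * (1 - β))
      have h1 : (ρ - 1) * (κ - σ) < σ * (1 - ρ * (1 - β)) := by
        have h2 : (1 + σ) * (σ * (1 - ρ * (1 - β)) - (ρ - 1) * (κ - σ))
            = (ρ - 1) * (κ * (σ * γ - (1 + σ)) + σ) := by
          linear_combination -σ * E3
        have h3 : 0 < σ * γ - (1 + σ) := by nlinarith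
        have h4 : 0 < (1 + σ) * (σ * (1 - ρ * (1 - β)) - (ρ - 1) * (κ - σ)) := by
          rw [h2]
          apply mul_pos (by linarith)
          have := mul_pos hκpos h3
          linarith
        have := (pos_iff_pos_of_mul_pos h4).1 (by linarith)
        linarith
      nlinarith

end Pool.Agent.Helper73.TH
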